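import Mathlib

/-!
# Weights of a representation of a torus

A nontrivial continuous representation of a torus on a real finite dimensional normed space has a
nonzero weight: a nonzero integral vector `w` and a vector `v` which is fixed by the kernel of the
corresponding linear form but not by the torus.
-/

set_option autoImplicit false

namespace Pool.Agent.TH193.Weight

open Set MeasureTheory Filter Topology UnitAddTorus

noncomputable local instance instMS : MeasureSpace UnitAddCircle := ⟨AddCircle.haarAddCircle⟩

local instance instHaar : Measure.IsAddHaarMeasure (volume : Measure UnitAddCircle) :=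
  inferInstanceAs (Measure.IsAddHaarMeasure AddCircle.haarAddCircle)

local instance instProb : IsProbabilityMeasure (volume : Measure UnitAddCircle) :=
  inferInstanceAs (IsProbabilityMeasure AddCircle.haarAddCircle)

/-- the projection to the torus -/
def prj {m : ℕ} (θ : Fin m → ℝ) : UnitAddTorus (Fin m) := fun i => (θ i : UnitAddCircle)

lemma prj_surj {m : ℕ} : Function.Surjective (prj (m := m)) := by
  intro t
  choose s hs using fun i => QuotientAddGroup.mk_surjective (t i)
  exact ⟨s, funext hs⟩

lemma prj_add {m : ℕ} (θ θ' : Fin m → ℝ) : prj (θ + θ') = prj θ + prj θ' := by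
  funext i
  simp [prj]

lemma nhds_prj {m : ℕ} (θ : Fin m → ℝ) : 𝓝 (prj θ) = Filter.map prj (𝓝 θ) := by
  have h1 : ∀ i : Fin m, 𝓝 ((prj θ) i) = Filter.map (fun x : ℝ => (x : UnitAddCircle)) (𝓝 (θ i)) := by
    intro i
    exact (QuotientAddGroup.isOpenQuotientMap_mk.map_nhds_eq (θ i)).symm
  rw [nhds_pi, nhds_pi]
  have h2 := Filter.map_piMap_pi_finite (f := fun (_ : Fin m) (x : ℝ) => (x : UnitAddCircle))
    (l := fun i => 𝓝 (θ i))
  have h3 : (prj : (Fin m → ℝ) → UnitAddTorus (Fin m)) =
      Pi.map (fun (_ : Fin m) (x : ℝ) => (x : UnitAddCircle)) := by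
    funext x i
    rfl
  rw [h3, h2]
  congr 1
  funext i
  exact h1 i

lemma mFourier_prj {m : ℕ} (w : Fin m → ℤ) (θ : Fin m → ℝ) :
    mFourier w (prj θ) = Complex.exp (2 * Real.pi * Complex.I * ((∑ i, (w i : ℝ) * θ i : ℝ) : ℂ)) := by
  simp only [mFourier, prj, ContinuousMap.coe_mk, fourier_coe_apply]
  rw [← Complex.exp_sum]
  congr 1
  push_cast
  rw [Finset.mul_sum]
  refine Finset.sum_congr rfl fun i _ => ?_
  ring

lemma mFourier_add_arg {m : ℕ} (w : Fin m → ℤ) (s t : UnitAddTorus (Fin m)) :
    mFourier w (s + t) = mFourier w s * mFourier w t := by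
  simp only [mFourier, ContinuousMap.coe_mk, Pi.add_apply]
  rw [← Finset.prod_mul_distrib]
  refine Finset.prod_congr rfl fun i _ => ?_
  simp [fourier_apply, AddCircle.toCircle_add, smul_add]

theorem exists_weight {E : Type*} [NormedAddCommGroup E] [NormedSpace ℝ E] [FiniteDimensional ℝ E]
    {m : ℕ} (ρ : (Fin m → ℝ) → E →L[ℝ] E) (hc : Continuous ρ)
    (h0 : ρ 0 = ContinuousLinearMap.id ℝ E)
    (hadd : ∀ θ θ', ρ (θ + θ') = (ρ θ).comp (ρ θ'))
    (hper : ∀ k : Fin m → ℤ, ρ (fun i => (k i : ℝ)) = ContinuousLinearMap.id ℝ E)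
    (hne : ∃ θ, ρ θ ≠ ContinuousLinearMap.id ℝ E) :
    ∃ (w : Fin m → ℤ) (v : E), w ≠ 0 ∧ (∀ θ, ∑ i, (w i : ℝ) * θ i = 0 → ρ θ v = v) ∧
      ∃ θ, ρ θ v ≠ v := by
  classical
  have : CompleteSpace E := FiniteDimensional.complete ℝ E
  have hper' : ∀ θ θ', prj θ = prj θ' → ρ θ = ρ θ' := by
    intro θ θ' h
    have h1 : ∀ i, ∃ n : ℤ, (n : ℝ) = θ i - θ' i := by
      intro i
      have h2 : ((θ i : ℝ) : UnitAddCircle) = ((θ' i : ℝ) : UnitAddCircle) := congrFun h i
      have h3 : ((θ i - θ' i : ℝ) : UnitAddCircle) = 0 := by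
        rw [AddCircle.coe_sub, h2, sub_self]
      obtain ⟨n, hn⟩ := (AddCircle.coe_eq_zero_iff (1 : ℝ)).1 h3
      exact ⟨n, by simpa using hn⟩
    choose k hk using h1
    have h4 : θ = θ' + fun i => (k i : ℝ) := by
      funext i
      simp [hk i]
    rw [h4, hadd, hper, ContinuousLinearMap.comp_id]
  choose s hs using (prj_surj (m := m))
  let R : UnitAddTorus (Fin m) → E →L[ℝ] E := fun t => ρ (s t)
  have hR : ∀ θ, R (prj θ) = ρ θ := fun θ => hper' _ _ (hs _)
  have hRc : Continuous R := by
    rw [continuous_iff_continuousAt]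
    intro t
    obtain ⟨θ, rfl⟩ := prj_surj t
    rw [ContinuousAt, nhds_prj, tendsto_map'_iff]
    have h1 : R ∘ prj = ρ := funext hR
    rw [h1, hR]
    exact hc.tendsto θ
  have hRadd : ∀ t t', R (t + t') = (R t).comp (R t') := by
    intro t t'
    obtain ⟨θ, rfl⟩ := prj_surj t
    obtain ⟨θ', rfl⟩ := prj_surj t'
    rw [← prj_add, hR, hR, hR, hadd]
  by_contra hcon
  push Not at hcon
  have hint : ∀ (a : C(UnitAddTorus (Fin m), ℝ)) (x : E), Integrable (fun t => a t • R t x) := by
    intro a x
    have h1 : Continuous fun t => a t • R t x :=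
      a.continuous.smul (hRc.clm_apply continuous_const)
    exact h1.integrable_of_hasCompactSupport (HasCompactSupport.of_compactSpace _)
  have key : ∀ w : Fin m → ℤ, w ≠ 0 → ∀ x : E, ∀ a : C(UnitAddTorus (Fin m), ℝ),
      (∀ t φ, mFourier w φ = 1 → a (t - φ) = a t) →
      (∀ t φ, mFourier w φ = -1 → a (t - φ) = - a t) → ∫ t, a t • R t x = 0 := by
    intro w hw x a h1 h2
    set v := ∫ t, a t • R t x with hv
    have h3 : ∀ φ, R φ v = ∫ t, a (t - φ) • R t x := by
      intro φ
      rw [hv, ← ContinuousLinearMap.integral_comp_comm _ (hint a x)]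
      rw [← integral_add_right_eq_self (fun t => a (t - φ) • R t x) φ]
      refine integral_congr_ae (Eventually.of_forall fun t => ?_)
      simp only [map_smul, add_sub_cancel_right]
      rw [add_comm t φ, hRadd]
      rfl
    have h4 : ∀ θ, ∑ i, (w i : ℝ) * θ i = 0 → ρ θ v = v := by
      intro θ hθ
      rw [← hR, h3, hv]
      refine integral_congr_ae (Eventually.of_forall fun t => ?_)
      have h5 : mFourier w (prj θ) = 1 := by
        rw [mFourier_prj, hθ]
        simp
      simp only [h1 t _ h5]
    have h5 := hcon w v hw h4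
    obtain ⟨i₀, hi₀⟩ : ∃ i, w i ≠ 0 := by
      by_contra h
      push Not at h
      exact hw (funext h)
    have h6 : ∑ i, (w i : ℝ) * (Pi.single i₀ (1 / (2 * (w i₀ : ℝ))) : Fin m → ℝ) i = 1 / 2 := by
      rw [Finset.sum_eq_single i₀]
      · have : (w i₀ : ℝ) ≠ 0 := by exact_mod_cast hi₀
        rw [Pi.single_eq_same]
        field_simp
      · intro j _ hj
        rw [Pi.single_eq_of_ne hj, mul_zero]
      · simp
    have h7 := h5 (Pi.single i₀ (1 / (2 * (w i₀ : ℝ))))
    have h8 : mFourier w (prj (Pi.single i₀ (1 / (2 * (w i₀ : ℝ))))) = -1 := by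
      rw [mFourier_prj, h6, ← Complex.exp_pi_mul_I]
      congr 1
      push_cast
      ring
    rw [← hR, h3] at h7
    have h9 : ∫ t, a (t - prj (Pi.single i₀ (1 / (2 * (w i₀ : ℝ))))) • R t x = -v := by
      rw [hv, ← integral_neg]
      refine integral_congr_ae (Eventually.of_forall fun t => ?_)
      simp only [h2 t _ h8, neg_smul]
    rw [h9] at h7
    have h10 : (2 : ℝ) • v = 0 := by
      rw [two_smul]
      nth_rewrite 1 [← h7]
      simp
    exact (smul_eq_zero.1 h10).resolve_left two_ne_zero
  obtain ⟨θ, hθ⟩ := hne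
  apply hθ
  ext x
  rw [ContinuousLinearMap.id_apply]
  by_contra hx
  obtain ⟨l, hl⟩ := SeparatingDual.exists_separating_of_ne (R := ℝ) hx
  apply hl
  let f : C(UnitAddTorus (Fin m), ℂ) := ⟨fun t => ((l (R t x) : ℝ) : ℂ),
    Complex.continuous_ofReal.comp (l.continuous.comp (hRc.clm_apply continuous_const))⟩
  have hcoef : ∀ w : Fin m → ℤ, w ≠ 0 → mFourierCoeff f w = 0 := by
    intro w hw
    let a : C(UnitAddTorus (Fin m), ℝ) := ⟨fun t => (mFourier w t).re,
      Complex.continuous_re.comp (mFourier w).continuous⟩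
    let b : C(UnitAddTorus (Fin m), ℝ) := ⟨fun t => (mFourier w t).im,
      Complex.continuous_im.comp (mFourier w).continuous⟩
    have hm : ∀ t φ, mFourier w t = mFourier w (t - φ) * mFourier w φ := by
      intro t φ
      rw [← mFourier_add_arg, sub_add_cancel]
    have ha : ∫ t, a t • R t x = 0 := by
      refine key w hw x a ?_ ?_
      · intro t φ h
        have := hm t φ
        rw [h, mul_one] at this
        change (mFourier w (t - φ)).re = (mFourier w t).re
        rw [this]
      · intro t φ h
        have := hm t φ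
        rw [h, mul_neg, mul_one] at this
        change (mFourier w (t - φ)).re = -(mFourier w t).re
        rw [this, Complex.neg_re, neg_neg]
    have hb : ∫ t, b t • R t x = 0 := by
      refine key w hw x b ?_ ?_
      · intro t φ h
        have := hm t φ
        rw [h, mul_one] at this
        change (mFourier w (t - φ)).im = (mFourier w t).im
        rw [this]
      · intro t φ h
        have := hm t φ
        rw [h, mul_neg, mul_one] at this
        change (mFourier w (t - φ)).im = -(mFourier w t).im
        rw [this, Complex.neg_im, neg_neg]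
    have ha' : ∫ t, a t * l (R t x) = 0 := by
      have := l.integral_comp_comm (hint a x)
      rw [ha, map_zero] at this
      simpa using this
    have hb' : ∫ t, b t * l (R t x) = 0 := by
      have := l.integral_comp_comm (hint b x)
      rw [hb, map_zero] at this
      simpa using this
    have hfun : (fun t => mFourier (-w) t • f t) = fun t =>
        (((a t * l (R t x) : ℝ) : ℂ)) - ((b t * l (R t x) : ℝ) : ℂ) * Complex.I := by
      funext t
      rw [mFourier_neg]
      change (starRingEnd ℂ) (mFourier w t) * ((l (R t x) : ℝ) : ℂ) =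
        ((((mFourier w t).re * l (R t x) : ℝ) : ℂ)) -
          (((mFourier w t).im * l (R t x) : ℝ) : ℂ) * Complex.I
      apply Complex.ext <;> simp
    have hia : Integrable (fun t => (((a t * l (R t x) : ℝ)) : ℂ)) := by
      have h1 : Continuous fun t => (((a t * l (R t x) : ℝ)) : ℂ) :=
        Complex.continuous_ofReal.comp (a.continuous.mul
          (l.continuous.comp (hRc.clm_apply continuous_const)))
      exact h1.integrable_of_hasCompactSupport (HasCompactSupport.of_compactSpace _)
    have hib : Integrable (fun t => (((b t * l (R t x) : ℝ)) : ℂ) * Complex.I) := by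
      have h1 : Continuous fun t => (((b t * l (R t x) : ℝ)) : ℂ) * Complex.I :=
        (Complex.continuous_ofReal.comp (b.continuous.mul
          (l.continuous.comp (hRc.clm_apply continuous_const)))).mul continuous_const
      exact h1.integrable_of_hasCompactSupport (HasCompactSupport.of_compactSpace _)
    unfold mFourierCoeff
    rw [hfun, integral_sub hia hib, integral_mul_const]
    rw [integral_complex_ofReal, integral_complex_ofReal, ha', hb']
    simp
  have hsum : Summable (mFourierCoeff f) := by
    refine summable_of_ne_finset_zero (s := {0}) ?_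
    intro w hw
    exact hcoef w (by simpa using hw)
  have hconst : ∀ t, f t = mFourierCoeff f 0 := by
    intro t
    have h1 := hasSum_mFourier_series_apply_of_summable hsum t
    have h2 : HasSum (fun i => mFourierCoeff f i • mFourier i t) (mFourierCoeff f 0 • mFourier 0 t) := by
      refine hasSum_single 0 ?_
      intro w hw
      rw [hcoef w hw, zero_smul]
    rw [h1.unique h2, mFourier_zero]
    simp
  have h1 : f (prj θ) = f (prj 0) := by rw [hconst, hconst]
  change ((l (R (prj θ) x) : ℝ) : ℂ) = ((l (R (prj 0) x) : ℝ) : ℂ) at h1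
  rw [hR, hR, h0] at h1
  exact_mod_cast h1

end Pool.Agent.TH193.Weight
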